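import Mathlib

set_option autoImplicit false

/-! Proportional subspaces of `l_1^k(l_q^m)` (MP_138624_an): definitions. -/

namespace Pool.PRP

open Finset

/-- the sign of a Boolean -/
noncomputable def sg (b : Bool) : ℝ := if b then 1 else -1

/-- the average over all choices of `n` signs -/
noncomputable def avg {n : ℕ} (F : (Fin n → Bool) → ℝ) : ℝ :=
  (∑ e : Fin n → Bool, F e) / 2 ^ n

/-- the norm of `l_1^k(l_q^m)` -/
noncomputable def nX {k m : ℕ} (q : ℝ) (x : Fin k → Fin m → ℝ) : ℝ :=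
  ∑ j, (∑ l, |x j l| ^ q) ^ (1 / q)

/-- the signed sum of the vectors `z i`, `i ∈ S` -/
noncomputable def rad {n k m : ℕ} (S : Finset (Fin n)) (z : Fin n → Fin k → Fin m → ℝ)
    (e : Fin n → Bool) : Fin k → Fin m → ℝ :=
  fun j l => ∑ i ∈ S, sg (e i) * z i j l

end Pool.PRP
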