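import Pool.Agent.H75.PRP.Defs

set_option autoImplicit false

/-! Statements of the modules of board `prp`. -/

namespace Pool.PRP

open Finset

/-- (KHU) upper Khintchine inequality -/
def SKhu : Prop := ∀ q : ℝ, 2 ≤ q → ∃ K : ℝ, 0 < K ∧ ∀ (n : ℕ) (S : Finset (Fin n))
  (a : Fin n → ℝ), avg (fun e => |∑ i ∈ S, sg (e i) * a i| ^ q) ≤ K * (∑ i ∈ S, a i ^ 2) ^ (q / 2)

/-- (KHL) lower Khintchine inequality with constant `√3` -/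
def SKhl : Prop := ∀ (n : ℕ) (S : Finset (Fin n)) (a : Fin n → ℝ),
  Real.sqrt (∑ i ∈ S, a i ^ 2) ≤ Real.sqrt 3 * avg (fun e => |∑ i ∈ S, sg (e i) * a i|)

/-- (ONE) one coefficient -/
def SOne : Prop := ∀ (n : ℕ) (S : Finset (Fin n)) (a : Fin n → ℝ) (i0 : Fin n), i0 ∈ S →
  |a i0| ≤ avg (fun e => |∑ i ∈ S, sg (e i) * a i|)

/-- (COT) cotype of `l_1^k(l_q^m)` -/
def SCot : Prop := ∀ (q : ℝ), 2 ≤ q → ∀ (n k m : ℕ) (x : Fin n → Fin k → Fin m → ℝ),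
  (∑ i, nX q (x i) ^ q) ^ (1 / q) ≤ Real.sqrt 3 * avg (fun e => nX q (rad univ x e))

/-- (UPP) second moment of a signed sum in `l_1^k(l_q^m)` -/
def SUpp : Prop := ∀ (q K : ℝ), 2 ≤ q → 0 < K →
  (∀ (n : ℕ) (S : Finset (Fin n)) (a : Fin n → ℝ),
    avg (fun e => |∑ i ∈ S, sg (e i) * a i| ^ q) ≤ K * (∑ i ∈ S, a i ^ 2) ^ (q / 2)) →
  ∀ (n k m : ℕ) (S : Finset (Fin n)) (z : Fin n → Fin k → Fin m → ℝ),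
    Real.sqrt (avg (fun e => nX q (rad S z e) ^ 2)) ≤
      K ^ (1 / q) * ∑ j, (∑ l, (∑ i ∈ S, z i j l ^ 2) ^ (q / 2)) ^ (1 / q)

/-- (PTW) pointwise inequality with cross terms -/
def SPtw : Prop := ∀ (r : ℝ), 1 < r → ∀ (n : ℕ) (S : Finset (Fin n)) (a : Fin n → ℝ),
  (∀ i, 0 ≤ a i) → (∀ i, a i ≤ 1) →
  (∑ i ∈ S, a i) ^ r ≤ 2 ^ r * (∑ i ∈ S, a i ^ r) +
    (n : ℝ) ^ (r + 1) * (∑ i ∈ S, ∑ j ∈ S.erase i, a i * a j) ^ (min 1 (r / 2))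

/-- (PRJ) the rows of the matrix of the orthogonal projection onto `E` -/
def SPrj : Prop := ∀ (k m : ℕ) (E : Submodule ℝ (Fin k → Fin m → ℝ)),
  ∃ z : Fin k → Fin m → Fin k → Fin m → ℝ,
    (∀ j l, z j l ∈ E) ∧ (∀ j l j' l', z j l j' l' = z j' l' j l) ∧
    (∀ j l, ∑ j', ∑ l', z j l j' l' ^ 2 = z j l j l) ∧
    ∑ j, ∑ l, z j l j l = (Module.finrank ℝ E : ℝ)

/-- (CNT) counting good rows -/
def SCnt : Prop := ∀ (k m : ℕ) (lam : ℝ), 0 < lam → 0 < m → ∀ h : Fin k → Fin m → ℝ,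
  (∀ j l, h j l ≤ 1) → lam * (k * m) ≤ ∑ j, ∑ l, h j l →
  ∃ G : Finset (Fin k), lam * k / 2 ≤ (G.card : ℝ) ∧
    ∀ j ∈ G, lam * m / 4 ≤ ((univ.filter fun l => lam / 4 ≤ h j l).card : ℝ)

/-- (GRD) greedy choice with small cross terms -/
def SGrd : Prop := ∀ (k m : ℕ) (w : ℝ), 0 < w → 0 < m → ∀ (z : Fin k → Fin m → Fin k → Fin m → ℝ),
  (∀ j l, ∑ j', ∑ l', z j l j' l' ^ 2 ≤ 1) → (∀ j' l', ∑ j, ∑ l, z j l j' l' ^ 2 ≤ 1) →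
  ∀ (G : Finset (Fin k)) (H : Fin k → Finset (Fin m)), (∀ j ∈ G, w ≤ ((H j).card : ℝ)) →
  ∃ l : Fin k → Fin m, (∀ j ∈ G, l j ∈ H j) ∧
    ∑ i ∈ G, ∑ j ∈ G.erase i, ∑ j', ∑ l', z i (l i) j' l' ^ 2 * z j (l j) j' l' ^ 2 ≤
      2 * (k : ℝ) ^ 2 / w

/-- (SEL) selection of vectors in a proportional subspace -/
def SSel : Prop := ∀ (k m : ℕ) (lam : ℝ), 0 < lam → 0 < m → 0 < k →
  ∀ E : Submodule ℝ (Fin k → Fin m → ℝ), lam * (k * m) ≤ (Module.finrank ℝ E : ℝ) →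
  ∃ (G : Finset (Fin k)) (z : Fin k → Fin k → Fin m → ℝ) (l : Fin k → Fin m),
    (∀ j, z j ∈ E) ∧ lam * k / 2 ≤ (G.card : ℝ) ∧ (∀ j ∈ G, lam / 4 ≤ z j j (l j)) ∧
    (∀ j, ∑ j', ∑ l', z j j' l' ^ 2 ≤ 1) ∧
    ∑ i ∈ G, ∑ j ∈ G.erase i, ∑ j', ∑ l', z i j' l' ^ 2 * z j j' l' ^ 2 ≤
      8 * (k : ℝ) ^ 2 / (lam * m)

/-- the combinatorial functional -/
noncomputable def FF {k : ℕ} (r : ℝ) (v : Fin k → Fin k → ℝ) (P : Fin k → Fin k → Prop)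
    [∀ i j, Decidable (P i j)] (S : Finset (Fin k)) : ℝ :=
  ∑ j', (∑ i ∈ S.filter (fun i => P i j'), v i j' ^ r) ^ (1 / (2 * r))

/-- (LRG) large entries -/
def SLrg : Prop := ∀ (r : ℝ), 1 < r → ∀ (k : ℕ) (t : ℝ), 0 < t → ∀ (v : Fin k → Fin k → ℝ)
  (P : Fin k → Fin k → Prop) [∀ i j, Decidable (P i j)],
  (∀ i j, 0 ≤ v i j) → (∀ i, ∑ j, v i j ≤ 1) → (∀ i j, P i j → t ≤ v i j) →
  ∀ S : Finset (Fin k), FF r v P S ≤ S.card / Real.sqrt t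

/-- (SML) entries at most `t`, with total mass at most `μ` -/
def SSml : Prop := ∀ (r : ℝ), 1 < r → ∀ (k : ℕ) (t M : ℝ), 0 < t → 0 ≤ M →
  ∀ (v : Fin k → Fin k → ℝ) (P : Fin k → Fin k → Prop) [∀ i j, Decidable (P i j)],
  (∀ i j, 0 ≤ v i j) → (∀ i j, P i j → v i j ≤ t) →
  ∀ S : Finset (Fin k), ∑ i ∈ S, ∑ j, (if P i j then v i j else 0) ≤ M →
  FF r v P S ≤ (k : ℝ) ^ (1 - 1 / (2 * r)) * (t ^ (r - 1) * M) ^ (1 / (2 * r))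

/-- (ADD) splitting into three classes -/
def SAdd : Prop := ∀ (r : ℝ), 1 < r → ∀ (k : ℕ) (v : Fin k → Fin k → ℝ), (∀ i j, 0 ≤ v i j) →
  ∀ (s t : ℝ), s ≤ t → ∀ S : Finset (Fin k),
  FF r v (fun _ _ => True) S ≤ FF r v (fun i j => t ≤ v i j) S + FF r v (fun i j => v i j < s) S +
    FF r v (fun i j => s ≤ v i j ∧ v i j < t) S

/-- (BLK) the estimate at one scale `B` -/
def SBlk : Prop := ∀ (r : ℝ), 1 < r → ∀ (k B : ℕ) (ρ δ : ℝ), 1 < ρ → 0 ≤ δ → 1 ≤ B → B ≤ k →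
  ∀ (G : Finset (Fin k)) (v : Fin k → Fin k → ℝ), (∀ i j, 0 ≤ v i j) → (∀ i, ∑ j, v i j ≤ 1) →
  ∑ i ∈ G, ∑ j, (if (ρ * B)⁻¹ ≤ v i j ∧ v i j < ρ / B then v i j else 0) ≤ δ * k →
  ∑ a ∈ range B, FF r v (fun _ _ => True) (G.filter fun i => (i : ℕ) % B = a) ^ 2 ≤
    3 * (4 / ρ + 2 ^ (1 / r) * ρ ^ (-((r - 1) / r)) + ρ ^ ((r - 1) / r) * δ ^ (1 / r)) * (k : ℝ) ^ 2

/-- (PIG) a scale with little mass -/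
def SPig : Prop := ∀ (k R I : ℕ), 2 ≤ R → 1 ≤ I → R ^ (2 * I) ≤ k →
  ∀ (G : Finset (Fin k)) (v : Fin k → Fin k → ℝ), (∀ i j, 0 ≤ v i j) → (∀ i, ∑ j, v i j ≤ 1) →
  ∃ B : ℕ, 1 ≤ B ∧ B ≤ k ∧
    ∑ i ∈ G, ∑ j, (if ((R : ℝ) * B)⁻¹ ≤ v i j ∧ v i j < (R : ℝ) / B then v i j else 0) ≤
      (I : ℝ)⁻¹ * k

/-- (CORE) the combinatorial core -/
def SCore : Prop := ∀ (r : ℝ), 1 < r → ∀ (ε : ℝ), 0 < ε → ∃ k0 : ℕ, ∀ k, k0 ≤ k →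
  ∀ (G : Finset (Fin k)) (v : Fin k → Fin k → ℝ), (∀ i j, 0 ≤ v i j) → (∀ i, ∑ j, v i j ≤ 1) →
  ∃ B : ℕ, 1 ≤ B ∧ B ≤ k ∧
    ∑ a ∈ range B, FF r v (fun _ _ => True) (G.filter fun i => (i : ℕ) % B = a) ^ 2 ≤
      ε * (k : ℝ) ^ 2

/-- (ROW) from squares of the rows to the functional `FF` -/
def SRow : Prop := ∀ (r : ℝ), 1 < r → ∀ (k m : ℕ) (z : Fin k → Fin k → Fin m → ℝ) (Q : ℝ), 0 ≤ Q →
  (∀ j, ∑ j', ∑ l', z j j' l' ^ 2 ≤ 1) → ∀ S : Finset (Fin k),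
  ∑ i ∈ S, ∑ j ∈ S.erase i, ∑ j', ∑ l', z i j' l' ^ 2 * z j j' l' ^ 2 ≤ Q →
  ∑ j', (∑ l', (∑ i ∈ S, z i j' l' ^ 2) ^ r) ^ (1 / (2 * r)) ≤
    Real.sqrt 2 * FF r (fun i j' => ∑ l', z i j' l' ^ 2) (fun _ _ => True) S +
    k * ((k : ℝ) ^ (r + 1) * ((m : ℝ) ^ (1 - min 1 (r / 2)) * Q ^ (min 1 (r / 2)))) ^ (1 / (2 * r))

/-- (LIM) the cross terms disappear for large `m` -/
def SLim : Prop := ∀ (r lam : ℝ), 1 < r → 0 < lam → ∀ (k : ℕ), ∃ m0 : ℕ, 1 ≤ m0 ∧ ∀ m : ℕ, m0 ≤ m →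
  k * ((k : ℝ) ^ (r + 1) * ((m : ℝ) ^ (1 - min 1 (r / 2)) *
    (8 * (k : ℝ) ^ 2 / (lam * m)) ^ (min 1 (r / 2)))) ^ (1 / (2 * r)) ≤ 1

/-- (T2B) type 2 for blocks -/
def ST2b : Prop := ∀ (q T : ℝ), 1 ≤ q → ∀ (k m : ℕ) (E : Submodule ℝ (Fin k → Fin m → ℝ)),
  (∀ (n : ℕ) (x : Fin n → Fin k → Fin m → ℝ), (∀ i, x i ∈ E) →
    Real.sqrt (avg (fun e : Fin n → Bool => nX q (rad univ x e) ^ 2)) ≤
      T * Real.sqrt (∑ i, nX q (x i) ^ 2)) →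
  ∀ (z : Fin k → Fin k → Fin m → ℝ), (∀ i, z i ∈ E) → ∀ (G : Finset (Fin k)) (B : ℕ), 1 ≤ B →
  avg (fun e : Fin k → Bool => nX q (rad G z e) ^ 2) ≤
    T ^ 2 * ∑ a ∈ range B,
      avg (fun e : Fin k → Bool => nX q (rad (G.filter fun i => (i : ℕ) % B = a) z e) ^ 2)

/-- (LOW) lower bound for the signed sum -/
def SLow : Prop := ∀ (q : ℝ), 1 ≤ q → ∀ (k m : ℕ) (z : Fin k → Fin k → Fin m → ℝ)
  (l : Fin k → Fin m) (G : Finset (Fin k)),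
  ∑ j ∈ G, |z j j (l j)| ≤ Real.sqrt (avg (fun e : Fin k → Bool => nX q (rad G z e) ^ 2))

/-- (FIN) conclusion -/
def SFin : Prop := ∀ (q lam T : ℝ), 2 < q → 0 < lam → ∃ k0 : ℕ, ∀ k, k0 ≤ k → ∃ m0 : ℕ, ∀ m, m0 ≤ m →
  ∀ (E : Submodule ℝ (Fin k → Fin m → ℝ)), lam * (k * m) ≤ (Module.finrank ℝ E : ℝ) →
  ¬ (∀ (n : ℕ) (x : Fin n → Fin k → Fin m → ℝ), (∀ i, x i ∈ E) →
    Real.sqrt (avg (fun e : Fin n → Bool => nX q (rad univ x e) ^ 2)) ≤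
      T * Real.sqrt (∑ i, nX q (x i) ^ 2))

end Pool.PRP
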